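import Pool.Agent.Lib.TGL_h89.Core

/-!
# TANK G, track L, row 3.3c: core statement (trivial action modulo `(χ > 0)`)
-/

set_option autoImplicit false

namespace Pool.Agent.TGL

open Pool.Agent.TAO (OVal VPos Ctx0)
open Pool.Agent.LU1 (FracIs fixO)
open Pool.Agent.ALLO (locv icl ICl decP le_locv)
open Pool.Agent.TGBh34 (IsFr Pre0)
open Pool.Agent.TGLh89

universe u w

variable {k Ω : Type u} [Field k] [Field Ω] [Algebra k Ω]
  {𝕂 : Type w} [Field 𝕂] [LinearOrder 𝕂] [IsStrictOrderedRing 𝕂] {v : OVal 𝕂 Ω} {r D n : ℕ}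
variable {F : IntermediateField k Ω} {N : IntermediateField F Ω} {R₁ : Subalgebra k Ω}
variable {L₀ : IntermediateField k Ω} {L : IntermediateField L₀ Ω} {R₀ : Subalgebra k Ω}

/-- All monomials have a power in `E` up to units. -/
def LF.TorsE (B : LF k v r D) (E : IntermediateField k Ω) : Prop :=
  ∀ γ ∈ B.Γ, ∃ e : ℕ, 0 < e ∧ ∃ m ∈ E, B.Un (m / B.χ (e * γ))

theorem LF.TorsE.div {B : LF k v r D} {E : IntermediateField k Ω} (h : B.TorsE E) {γ : 𝕂}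
    (hγ : γ ∈ B.Γ) : ∃ e : ℕ, 0 < e ∧ ∃ m ∈ E, m ≠ 0 ∧ m / B.χ (e * γ) ∈ B.R ∧
      B.χ (e * γ) / m ∈ B.R := by
  obtain ⟨e, he, m, hm, hu⟩ := h γ hγ
  refine ⟨e, he, m, hm, ?_, hu.1, ?_⟩
  · rintro rfl
    exact hu.2.1 (zero_div _)
  · have := hu.ge.2
    rwa [inv_div] at this

/-- Trivial action modulo `(χ > 0)` of an automorphism preserving the ring and the parameters. -/
theorem hi_sub_LF {E : IntermediateField k Ω} {M : IntermediateField E Ω} (h : Ctx0 k v n)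
    (B : LF k v r D) (hBM : ∀ f ∈ B.R, f ∈ M) (hroot : RootN M B.R) (ht : B.TorsE E)
    {σ : M ≃ₐ[E] M} (hσ : StabR σ B.R)
    (hy : ∀ x : M, ∀ i, (x : Ω) = B.y i → B.Hi ((σ x : Ω) - B.y i)) (a : M)
    (ha : (a : Ω) ∈ B.R) : B.Hi ((σ a : Ω) - a) := by
  refine hi_sub h.res B.isFr89 hBM hσ (fun x γ hγ hx => ?_) hy a ha
  exact (chi_div B.isFr89.toPre0 hBM hroot hσ x γ hγ hx (ht.div hγ)).1

theorem LF.Hi.up {B : LF k v r D} {r' D' : ℕ} {C : LF k v r' D'} (hle : B.R ≤ C.R)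
    (hχ : ∀ γ ∈ B.Γ, C.Mono (B.χ γ)) {f : Ω} (hf : B.Hi f) : C.Hi f := by
  obtain ⟨γ, hγ, a, ha, h0, rfl⟩ := hf
  rcases h0 with h0 | h0
  · have h1 := hχ γ hγ
    have hv : v (B.χ γ) = γ := B.χ_val γ hγ
    have h2 := h1.2.1
    rw [hv] at h2
    have h3 := h1.2.2.1
    rw [hv] at h3
    refine ⟨γ, h2, B.χ γ / C.χ γ * a, C.R.mul_mem h3 (hle ha), Or.inl h0, ?_⟩
    rw [← mul_assoc, mul_div_cancel₀ _ (C.χ_ne γ h2)]
  · rw [h0, mul_zero]
    exact hi_zero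

/-- ROW 3.3c, core. -/
theorem act_core (h : Ctx0 k v n) (hLF : L₀ ≤ F) (hR₀ : ∀ f ∈ R₀, f ∈ L₀)
    (hR₀v : ∀ f ∈ R₀, v.Ge 0 f) (hR₁ : ∀ f ∈ R₁, v.Ge 0 f)
    (B : LF k v r D) (hB : B.R = ICl v R₀ (L.restrictScalars k)) (hBy : ∀ i, B.y i ∈ L₀)
    (hBt : B.TorsE L₀) (hm : (Nat.card (decP v R₀ L₀ L) : k) ≠ 0)
    {r' D' : ℕ} (C : LF k v r' D') (hC : C.R = ICl v R₁ (N.restrictScalars k))
    (hle : B.R ≤ C.R) (hχ : ∀ γ ∈ B.Γ, C.Mono (B.χ γ)) (hCt : C.TorsE F)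
    {φ : (N ≃ₐ[F] N) →* (L ≃ₐ[L₀] L)}
    (hφ : ∀ σ, ∀ a : N, ∀ b : L, (a : Ω) = b → ((σ a : N) : Ω) = (φ σ b : L))
    {w : N} (hw0 : w ≠ 0) (hw : ∀ σ ∈ decP v R₁ F N, σ w = w)
    (hy : ∀ j : Fin D', (∃ i, C.y j = B.y i) ∨ ∃ (q : ℕ) (c : k), 0 < q ∧ c ≠ 0 ∧
      (q : 𝕂) * v (w : Ω) ∈ B.Γ ∧
      C.y j = (w : Ω) ^ q / B.χ (q * v (w : Ω)) - algebraMap k Ω c)
    {σ : N ≃ₐ[F] N} (hσ : σ ∈ decP v R₁ F N) (a : N) (ha : (a : Ω) ∈ C.R) :
    C.Hi ((σ a : Ω) - a) := by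
  have hBL : ∀ f ∈ B.R, f ∈ L := fun f hf => by
    rw [hB] at hf
    obtain ⟨c, hc, d, hd, -, -, e⟩ := hf
    rw [e]
    exact (L.restrictScalars k).div_mem hc.1 hd.1
  have hCN : ∀ f ∈ C.R, f ∈ N := fun f hf => by
    rw [hC] at hf
    obtain ⟨c, hc, d, hd, -, -, e⟩ := hf
    rw [e]
    exact (N.restrictScalars k).div_mem hc.1 hd.1
  have hle' : ICl v R₀ (L.restrictScalars k) ≤ ICl v R₁ (N.restrictScalars k) := by
    rw [← hB, ← hC]; exact hle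
  have hσ' := dec_restrict hR₀ hR₁ hle' hφ hσ
  -- the action on `B`
  have hstB : StabR (φ σ) B.R := fun b hb => by
    rw [hB] at hb ⊢
    exact (decP_mem hR₀v hσ' hb).1
  have hstC : StabR σ C.R := fun b hb => by
    rw [hC] at hb ⊢
    exact (decP_mem hR₁ hσ hb).1
  have hposC : ∀ b : N, (b : Ω) ∈ C.R → VPos v (b : Ω) → VPos v (σ b : Ω) := fun b hb h1 => by
    rw [hC] at hb
    exact (decP_mem hR₁ hσ hb).2.1 h1
  have hrB : RootN L B.R := by rw [hB]; exact rootN_ICl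
  have hrC : RootN N C.R := by rw [hC]; exact rootN_ICl
  have htrivB : ∀ b : L, (b : Ω) ∈ B.R → B.Hi ((φ σ b : Ω) - b) := by
    intro b hb
    refine hi_sub_LF h B hBL hrB hBt hstB (fun x i hx => ?_) b hb
    have h1 : x = algebraMap L₀ L ⟨B.y i, hBy i⟩ := Subtype.ext hx
    rw [h1, (φ σ).commutes]
    change B.Hi (B.y i - B.y i)
    rw [sub_self]
    exact hi_zero
  refine hi_sub_LF h C hCN hrC hCt hstC (fun x j hx => ?_) a ha
  rcases hy j with ⟨i, hi⟩ | ⟨q, c, hq, hc0, hqΓ, hyj⟩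
  · have h1 : x = algebraMap F N ⟨B.y i, hLF (hBy i)⟩ := Subtype.ext (hx.trans hi)
    rw [h1, σ.commutes, hi]
    change C.Hi (B.y i - B.y i)
    rw [sub_self]
    exact hi_zero
  · -- the new parameter
    set γ : 𝕂 := (q : 𝕂) * v (w : Ω) with hγ
    have hχ0 := B.χ_ne γ hqΓ
    have hwΩ : (w : Ω) ≠ 0 := fun h => hw0 (Subtype.ext h)
    have hχL : B.χ γ ∈ L := by
      rcases le_total 0 γ with h0 | h0
      · exact hBL _ (B.χ_mem γ hqΓ h0)
      · have h1 := hBL _ (B.χ_mem (-γ) (B.Γ.neg_mem hqΓ) (neg_nonneg.2 h0))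
        have h2 : B.χ γ = (B.χ (-γ))⁻¹ := by
          have h3 := B.χ_add γ hqΓ (-γ) (B.Γ.neg_mem hqΓ)
          rw [add_neg_cancel, B.isFr89.mon.zero] at h3
          exact eq_inv_of_mul_eq_one_left h3.symm
        rw [h2]
        exact L.inv_mem h1
    set X : L := ⟨B.χ γ, hχL⟩ with hX
    have hX0 : X ≠ 0 := fun h => hχ0 (congrArg (fun t : L => (t : Ω)) h)
    -- `x + c = w ^ q / X`
    have hχN : B.χ γ ∈ N := by
      have h1 := hχ γ hqΓ
      have h2 := h1.2.2.1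
      have h3 : B.χ γ = (B.χ γ / C.χ (v (B.χ γ))) * C.χ (v (B.χ γ)) := by
        rw [div_mul_cancel₀ _ (C.χ_ne _ h1.2.1)]
      have h4 : C.χ (v (B.χ γ)) ∈ N := by
        rcases le_total 0 (v (B.χ γ)) with h0 | h0
        · exact hCN _ (C.χ_mem _ h1.2.1 h0)
        · have h5 := hCN _ (C.χ_mem (-v (B.χ γ)) (C.Γ.neg_mem h1.2.1) (neg_nonneg.2 h0))
          have h6 : C.χ (v (B.χ γ)) = (C.χ (-v (B.χ γ)))⁻¹ := by
            have h7 := C.χ_add _ h1.2.1 (-v (B.χ γ)) (C.Γ.neg_mem h1.2.1)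
            rw [add_neg_cancel, C.isFr89.mon.zero] at h7
            exact eq_inv_of_mul_eq_one_left h7.symm
          rw [h6]
          exact N.inv_mem h5
      rw [h3]
      exact N.mul_mem (hCN _ h2) h4
    set XN : N := ⟨B.χ γ, hχN⟩ with hXN
    have hXN0 : XN ≠ 0 := fun h => hχ0 (congrArg (fun t : N => (t : Ω)) h)
    have hσX : (σ XN : Ω) = (φ σ X : Ω) := hφ σ XN X rfl
    have hcN : algebraMap k Ω c ∈ N := (algebraMap F N (algebraMap k F c)).2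
    have hxeq : x = w ^ q / XN - ⟨algebraMap k Ω c, hcN⟩ := by
      apply Subtype.ext
      rw [hx, hyj]
      push_cast
      rfl
    have hσx : σ x = w ^ q / σ XN - ⟨algebraMap k Ω c, hcN⟩ := by
      rw [hxeq, map_sub, map_div₀, map_pow, hw σ hσ]
      congr 1
      exact Subtype.ext (commutes_k σ c hcN)
    -- the cocycle
    have hεR : ((X / φ σ X : L) : Ω) ∈ B.R := by
      have h1 := (chi_div B.isFr89.toPre0 hBL hrB hstB X γ hqΓ rfl (hBt.div hqΓ)).2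
      push_cast
      exact h1
    have hσXL0 : (φ σ X : Ω) ≠ 0 := fun h => hX0 ((map_eq_zero (φ σ)).1 (Subtype.ext h))
    have hxC : (x : Ω) ∈ C.R := by rw [hx]; exact C.y_mem j
    have hxpos : VPos v (x : Ω) := by rw [hx]; exact fun _ => C.y_pos j
    have hσxpos := hposC x hxC hxpos
    set u : Ω := (w : Ω) ^ q / B.χ γ with hu
    have hu0 : u ≠ 0 := div_ne_zero (pow_ne_zero _ hwΩ) hχ0
    have huv : v u = 0 := by
      rw [hu, v.map_div (pow_ne_zero _ hwΩ) hχ0, v.map_pow hwΩ, B.χ_val γ hqΓ, hγ, sub_self]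
    have hxu : (x : Ω) = u - algebraMap k Ω c := by rw [hx, hyj]
    have hσxu : (σ x : Ω) = u * ((X / φ σ X : L) : Ω) - algebraMap k Ω c := by
      rw [hσx]
      push_cast
      have hXc : (X : Ω) = B.χ γ := rfl
      rw [hσX, hu, hXc]
      field_simp
    have hres : VPos v (((X / φ σ X : L) : Ω) - 1) := by
      have h1 : VPos v (u * (((X / φ σ X : L) : Ω) - 1)) := by
        have h2 := hσxpos.sub hxpos
        rw [hσxu, hxu] at h2
        have e : u * ((X / φ σ X : L) : Ω) - algebraMap k Ω c - (u - algebraMap k Ω c) =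
            u * (((X / φ σ X : L) : Ω) - 1) := by ring
        rwa [e] at h2
      intro h0
      have h3 := h1 (mul_ne_zero hu0 h0)
      rwa [v.map_mul hu0 h0, huv, zero_add] at h3
    have hcard : (φ σ) ^ Nat.card (decP v R₀ L₀ L) = 1 := by
      have h1 : (⟨φ σ, hσ'⟩ : decP v R₀ L₀ L) ^ Nat.card (decP v R₀ L₀ L) = 1 := pow_card_eq_one'
      exact congrArg (fun t : decP v R₀ L₀ L => (t : L ≃ₐ[L₀] L)) h1
    have hcoc := cocycle h.triv B.isFr89.toPre0 htrivB hm hcard hX0 hεR hres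
    have h5 : C.Hi (((X / φ σ X : L) : Ω) - 1) := LF.Hi.up hle hχ hcoc
    have e : (σ x : Ω) - C.y j = (((X / φ σ X : L) : Ω) - 1) * (C.y j + algebraMap k Ω c) := by
      rw [hσxu, ← hx, hxu]; ring
    rw [e]
    exact hi_mul h5 (C.R.add_mem (C.y_mem j) (C.R.algebraMap_mem c))

end Pool.Agent.TGL
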