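import Pool.Agent.Lib.TGL_h89.Hi

/-!
# TANK G, track L, row 3.3 (B), (C): automorphisms acting on a limit frame ring
-/

set_option autoImplicit false

namespace Pool.Agent.TGLh89

open Pool.Agent.TAO (OVal VPos Ctx0)
open Pool.Agent.ALLO (locv le_locv locv_mono locv_le locv_inv locv_nonneg icl ICl decP)
open Pool.Agent.TGBh34

universe u w

variable {k Ω : Type u} [Field k] [Field Ω] [Algebra k Ω]
  {𝕂 : Type w} [Field 𝕂] [LinearOrder 𝕂] [IsStrictOrderedRing 𝕂] {v : OVal 𝕂 Ω} {D : ℕ}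
variable {Γ : AddSubgroup 𝕂} {χ : 𝕂 → Ω} {y : Fin D → Ω} {R : Subalgebra k Ω}
variable {F : IntermediateField k Ω} {N : IntermediateField F Ω}

/-- `σ` maps `R` to itself. -/
def StabR (σ : N ≃ₐ[F] N) (R : Subalgebra k Ω) : Prop :=
  ∀ a : N, (a : Ω) ∈ R → (σ a : Ω) ∈ R

theorem commutes_k (σ : N ≃ₐ[F] N) (c : k) (h : algebraMap k Ω c ∈ N) :
    (σ ⟨algebraMap k Ω c, h⟩ : Ω) = algebraMap k Ω c := by
  have h1 : (⟨algebraMap k Ω c, h⟩ : N) = algebraMap F N (algebraMap k F c) := Subtype.ext rfl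
  rw [h1, σ.commutes]
  rfl

/-- The action of `σ` on `R`. -/
def sHom (σ : N ≃ₐ[F] N) (hRN : ∀ f ∈ R, f ∈ N) (hσ : StabR σ R) : R →ₐ[k] R where
  toFun f := ⟨(σ ⟨f, hRN f f.2⟩ : Ω), hσ _ f.2⟩
  map_one' := by
    apply Subtype.ext
    change (σ ⟨((1 : R) : Ω), _⟩ : Ω) = 1
    have : (⟨((1 : R) : Ω), hRN _ (1 : R).2⟩ : N) = 1 := Subtype.ext rfl
    rw [this, map_one]; rfl
  map_mul' := fun a b => by
    apply Subtype.ext
    change (σ ⟨((a * b : R) : Ω), _⟩ : Ω) = σ ⟨(a : Ω), _⟩ * σ ⟨(b : Ω), _⟩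
    have : (⟨((a * b : R) : Ω), hRN _ (a * b : R).2⟩ : N) = ⟨(a : Ω), hRN _ a.2⟩ * ⟨(b : Ω), hRN _ b.2⟩ :=
      Subtype.ext rfl
    rw [this, map_mul]; rfl
  map_zero' := by
    apply Subtype.ext
    change (σ ⟨((0 : R) : Ω), _⟩ : Ω) = 0
    have : (⟨((0 : R) : Ω), hRN _ (0 : R).2⟩ : N) = 0 := Subtype.ext rfl
    rw [this, map_zero]; rfl
  map_add' := fun a b => by
    apply Subtype.ext
    change (σ ⟨((a + b : R) : Ω), _⟩ : Ω) = σ ⟨(a : Ω), _⟩ + σ ⟨(b : Ω), _⟩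
    have : (⟨((a + b : R) : Ω), hRN _ (a + b : R).2⟩ : N) = ⟨(a : Ω), hRN _ a.2⟩ + ⟨(b : Ω), hRN _ b.2⟩ :=
      Subtype.ext rfl
    rw [this, map_add]; rfl
  commutes' := fun c => by
    apply Subtype.ext
    change (σ ⟨((algebraMap k R c : R) : Ω), _⟩ : Ω) = algebraMap k Ω c
    exact commutes_k σ c (hRN _ (algebraMap k R c).2)

theorem sHom_coe (σ : N ≃ₐ[F] N) (hRN : ∀ f ∈ R, f ∈ N) (hσ : StabR σ R) (a : N)
    (ha : (a : Ω) ∈ R) : (sHom σ hRN hσ ⟨a, ha⟩ : Ω) = (σ a : Ω) := rfl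

/-- (A) for automorphisms. -/
theorem hi_sub (hr : ∀ g : Ω, g ≠ 0 → v g = 0 → ∃ c : k, c ≠ 0 ∧ VPos v (g - algebraMap k Ω c))
    (H : IsFr v Γ χ y R) (hRN : ∀ f ∈ R, f ∈ N) {σ : N ≃ₐ[F] N} (hσ : StabR σ R)
    (hχ : ∀ x : N, ∀ γ ∈ Γ, (x : Ω) = χ γ → (σ x : Ω) / χ γ ∈ R)
    (hy : ∀ x : N, ∀ i, (x : Ω) = y i → Hi Γ χ R ((σ x : Ω) - y i)) (a : N) (ha : (a : Ω) ∈ R) :
    Hi Γ χ R ((σ a : Ω) - a) := by
  have h1 := hi_of_hom hr H (sHom σ hRN hσ) (fun γ hγ h0 => ?_) (fun i => ?_) ⟨a, ha⟩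
  · exact h1
  · have h2 := hχ ⟨χ γ, hRN _ (H.χ_mem γ hγ h0.le)⟩ γ hγ rfl
    refine ⟨γ, hγ, _, h2, Or.inl h0, ?_⟩
    rw [mul_div_cancel₀ _ (H.mon.ne γ hγ)]
    rfl
  · exact hy ⟨y i, hRN _ (H.y_mem i)⟩ i rfl

/-- `R` is closed under roots in `N`. -/
def RootN (N : IntermediateField F Ω) (R : Subalgebra k Ω) : Prop :=
  ∀ x ∈ N, ∀ q : ℕ, 0 < q → x ^ q ∈ R → x ∈ R

/-- (B): the classes of the monomials are fixed. -/
theorem chi_div (H : Pre0 v Γ χ y R) (hRN : ∀ f ∈ R, f ∈ N) (hroot : RootN N R)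
    {σ : N ≃ₐ[F] N} (hσ : StabR σ R) (x : N) (γ : 𝕂) (hγ : γ ∈ Γ) (hx : (x : Ω) = χ γ)
    (htors : ∃ e : ℕ, 0 < e ∧ ∃ m ∈ F, m ≠ 0 ∧ m / χ (e * γ) ∈ R ∧ χ (e * γ) / m ∈ R) :
    (σ x : Ω) / χ γ ∈ R ∧ χ γ / (σ x : Ω) ∈ R := by
  obtain ⟨e, he, m, hmF, hm0, h1, h2⟩ := htors
  have hχe : χ (e * γ) = χ γ ^ e := by
    induction e with
    | zero => exact absurd he (lt_irrefl _)
    | succ n ih =>
      clear ih he h1 h2
      induction n with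
      | zero => simp
      | succ n ih =>
        have h3 : ((n + 1 + 1 : ℕ) : 𝕂) * γ = ((n + 1 : ℕ) : 𝕂) * γ + γ := by push_cast; ring
        have h4 : ((n + 1 : ℕ) : 𝕂) * γ ∈ Γ := by
          rw [← nsmul_eq_mul]; exact Γ.nsmul_mem hγ _
        rw [h3, H.mon.add _ h4 _ hγ, ih, pow_succ (χ γ) (n + 1)]
  have hχ0 := H.mon.ne γ hγ
  have hx0 : x ≠ 0 := by
    rintro rfl
    exact hχ0 hx.symm
  have hσx0 : (σ x : Ω) ≠ 0 := by
    intro h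
    have : σ x = 0 := Subtype.ext h
    exact hx0 ((map_eq_zero σ).1 this)
  set mN : N := algebraMap F N ⟨m, hmF⟩ with hmN
  have hmNc : (mN : Ω) = m := rfl
  have hσm : σ mN = mN := σ.commutes _
  have hmN0 : mN ≠ 0 := fun h => hm0 (by rw [← hmNc, h]; rfl)
  -- the two units
  have e1 : ((mN / x ^ e : N) : Ω) = m / χ (e * γ) := by
    rw [hχe, ← hx, ← hmNc]; push_cast; rfl
  have e2 : ((x ^ e / mN : N) : Ω) = χ (e * γ) / m := by
    rw [hχe, ← hx, ← hmNc]; push_cast; rfl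
  have h3 := hσ (mN / x ^ e) (by rw [e1]; exact h1)
  have h4 := hσ (x ^ e / mN) (by rw [e2]; exact h2)
  rw [map_div₀, map_pow, hσm] at h3 h4
  have e3 : ((σ x : Ω) / χ γ) ^ e = ((σ x ^ e / mN : N) : Ω) * (m / χ (e * γ)) := by
    have : ((σ x ^ e / mN : N) : Ω) = (σ x : Ω) ^ e / m := by
      rw [← hmNc]; push_cast; rfl
    rw [this, hχe, div_pow]
    field_simp
  have e4 : (χ γ / (σ x : Ω)) ^ e = ((mN / σ x ^ e : N) : Ω) * (χ (e * γ) / m) := by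
    have : ((mN / σ x ^ e : N) : Ω) = m / (σ x : Ω) ^ e := by
      rw [← hmNc]; push_cast; rfl
    rw [this, hχe, div_pow]
    field_simp
  have hσxN : (σ x : Ω) ∈ N := (σ x).2
  have hχN : χ γ ∈ N := hx ▸ x.2
  refine ⟨hroot _ (N.div_mem hσxN hχN) e he ?_, hroot _ (N.div_mem hχN hσxN) e he ?_⟩
  · rw [e3]; exact R.mul_mem h4 h1
  · rw [e4]; exact R.mul_mem h3 h2

/-- (C): a unit cocycle with residue `1` is `1` modulo `(χ > 0)`. `x` is an element of `N` (a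
monomial) with `x / σ x` in the frame ring `R`, on which `σ` acts trivially modulo `(χ > 0)`. -/
theorem cocycle (hk : ∀ c : k, c ≠ 0 → v (algebraMap k Ω c) = 0)
    (H : Pre0 v Γ χ y R) {σ : N ≃ₐ[F] N}
    (htriv : ∀ a : N, (a : Ω) ∈ R → Hi Γ χ R ((σ a : Ω) - a)) {m : ℕ} (hm : (m : k) ≠ 0)
    (hσm : σ ^ m = 1) {x : N} (hx0 : x ≠ 0) (hx : ((x / σ x : N) : Ω) ∈ R)
    (hres : VPos v (((x / σ x : N) : Ω) - 1)) : Hi Γ χ R (((x / σ x : N) : Ω) - 1) := by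
  have hstab : StabR σ R := fun a ha => by
    have := R.add_mem (hi_mem H (htriv a ha)) ha
    rwa [sub_add_cancel] at this
  set ε : N := x / σ x with hε
  have hσj : ∀ j : ℕ, (σ ^ j) x ≠ 0 := fun j h => hx0 ((map_eq_zero (σ ^ j)).1 h)
  -- the powers
  have hj : ∀ j : ℕ, (((σ ^ j) ε : N) : Ω) ∈ R ∧ Hi Γ χ R ((((σ ^ j) ε : N) : Ω) - ε) := by
    intro j
    induction j with
    | zero => exact ⟨hx, by rw [pow_zero, AlgEquiv.one_apply, sub_self]; exact hi_zero⟩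
    | succ j ih =>
      have e1 : (σ ^ (j + 1)) ε = σ ((σ ^ j) ε) := by rw [pow_succ', AlgEquiv.mul_apply]
      rw [e1]
      refine ⟨hstab _ ih.1, ?_⟩
      have h2 := hi_add H (htriv _ ih.1) ih.2
      rwa [sub_add_sub_cancel] at h2
  have hprod : ∀ j : ℕ, ∏ i ∈ Finset.range j, (σ ^ i) ε = x / (σ ^ j) x := by
    intro j
    induction j with
    | zero => simp [hx0]
    | succ j ih =>
      rw [Finset.prod_range_succ, ih, hε, map_div₀]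
      have e1 : (σ ^ j) (σ x) = (σ ^ (j + 1)) x := by rw [pow_succ, AlgEquiv.mul_apply]
      rw [e1]
      have h1 := hσj j
      have h2 := hσj (j + 1)
      field_simp
  have hhi : ∀ j : ℕ, Hi Γ χ R (((∏ i ∈ Finset.range j, (σ ^ i) ε : N) : Ω) - (ε : Ω) ^ j) := by
    intro j
    induction j with
    | zero => simp only [Finset.range_zero, Finset.prod_empty, pow_zero]
              rw [OneMemClass.coe_one, sub_self]; exact hi_zero
    | succ j ih =>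
      rw [Finset.prod_range_succ]
      have e1 : ((((∏ i ∈ Finset.range j, (σ ^ i) ε) * (σ ^ j) ε : N)) : Ω) - (ε : Ω) ^ (j + 1) =
          (((∏ i ∈ Finset.range j, (σ ^ i) ε : N) : Ω) - (ε : Ω) ^ j) * (((σ ^ j) ε : N) : Ω) +
            ((((σ ^ j) ε : N) : Ω) - ε) * (ε : Ω) ^ j := by
        rw [MulMemClass.coe_mul]; ring
      rw [e1]
      exact hi_add H (hi_mul ih (hj j).1) (hi_mul (hj j).2 (R.pow_mem hx j))
  have h1 := hhi m
  have h2 : x / (σ ^ m) x = 1 := by rw [hσm, AlgEquiv.one_apply, div_self hx0]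
  rw [hprod m, h2, OneMemClass.coe_one] at h1
  -- the factor
  set s : Ω := ∑ j ∈ Finset.range m, (ε : Ω) ^ j with hs
  have hgeom : (ε : Ω) ^ m - 1 = ((ε : Ω) - 1) * s := by
    rw [hs, mul_comm]; exact (geom_sum_mul (ε : Ω) m).symm
  have hsR : s ∈ R := R.sum_mem fun j _ => R.pow_mem hx j
  have hsv : VPos v (s - m) := by
    have e1 : s - m = ∑ j ∈ Finset.range m, ((ε : Ω) ^ j - 1) := by
      rw [hs, Finset.sum_sub_distrib, Finset.sum_const, Finset.card_range, nsmul_eq_mul, mul_one]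
    rw [e1]
    refine vpos_sum _ _ fun j _ => ?_
    have e2 : (ε : Ω) ^ j - 1 = ((ε : Ω) - 1) * ∑ i ∈ Finset.range j, (ε : Ω) ^ i := by
      rw [mul_comm]; exact (geom_sum_mul (ε : Ω) j).symm
    rw [e2]
    exact hres.mul (H.nonneg _ (R.sum_mem fun i _ => R.pow_mem hx i))
  have hmΩ : (m : Ω) = algebraMap k Ω (m : k) := by simp
  have hm0 : (m : Ω) ≠ 0 := by rw [hmΩ]; exact (map_ne_zero _).2 hm
  have hmv : v (m : Ω) = 0 := by rw [hmΩ]; exact hk _ hm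
  have hs1 := TAO.val_add_vpos (v := v) hm0 hmv hsv
  rw [add_sub_cancel] at hs1
  have h3 : (ε : Ω) - 1 = (-(1 - (ε : Ω) ^ m)) * s⁻¹ := by
    have : -(1 - (ε : Ω) ^ m) = ((ε : Ω) - 1) * s := by rw [← hgeom]; ring
    rw [this, mul_assoc, mul_inv_cancel₀ hs1.1, mul_one]
  rw [h3]
  exact hi_mul (hi_neg h1) (H.loc s hsR hs1.1 hs1.2)

end Pool.Agent.TGLh89
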