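import Pool.Agent.Lib.TGL_h89.Fr
import Pool.Agent.Lib.TG_h89.Fix

/-!
# TANK G, track L, row 3.3: core statements (restriction of the decomposition group, nearest point)
-/

set_option autoImplicit false

namespace Pool.Agent.TGL

open Pool.Agent.TAO (OVal VPos Ctx0)
open Pool.Agent.LU1 (FracIs fixO)
open Pool.Agent.ALLO (locv icl ICl decP le_locv)
open Pool.Agent.TGBh34 (IsFr Pre0)
open Pool.Agent.TGLh89

universe u w

variable {k Ω : Type u} [Field k] [Field Ω] [Algebra k Ω]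
  {𝕂 : Type w} [Field 𝕂] [LinearOrder 𝕂] [IsStrictOrderedRing 𝕂] {v : OVal 𝕂 Ω} {r D n : ℕ}
variable {F : IntermediateField k Ω} {N : IntermediateField F Ω} {R₁ : Subalgebra k Ω}
variable {L₀ : IntermediateField k Ω} {L : IntermediateField L₀ Ω} {R₀ : Subalgebra k Ω}

/-- The decomposition group restricts to the decomposition group. -/
theorem dec_restrict (hR₀ : ∀ f ∈ R₀, f ∈ L₀) (hR₁ : ∀ f ∈ R₁, v.Ge 0 f)
    (hle : ICl v R₀ (L.restrictScalars k) ≤ ICl v R₁ (N.restrictScalars k))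
    {φ : (N ≃ₐ[F] N) →* (L ≃ₐ[L₀] L)}
    (hφ : ∀ σ, ∀ a : N, ∀ b : L, (a : Ω) = b → ((σ a : N) : Ω) = (φ σ b : L))
    {σ : N ≃ₐ[F] N} (hσ : σ ∈ decP v R₁ F N) : φ σ ∈ decP v R₀ L₀ L := by
  intro a ha
  refine ⟨ALLZO.int_map hR₀ (φ σ) ha, ALLZO.int_map hR₀ (φ σ)⁻¹ ha, ?_⟩
  have h1 : (a : Ω) ∈ ICl v R₀ (L.restrictScalars k) := le_locv _ ⟨a.2, ha⟩
  have h2 := hle h1
  have h3 : (a : Ω) ∈ N := by
    obtain ⟨c, hc, d, hd, -, -, e⟩ := h2
    rw [e]
    exact (N.restrictScalars k).div_mem hc.1 hd.1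
  have h4 := (decP_mem hR₁ hσ (x := ⟨(a : Ω), h3⟩) h2).2
  rw [hφ σ ⟨(a : Ω), h3⟩ a rfl] at h4
  exact h4

/-- The order of the decomposition group. -/
theorem card_dec_dvd (hR₀ : ∀ f ∈ R₀, f ∈ L₀) (hR₁ : ∀ f ∈ R₁, v.Ge 0 f)
    (hle : ICl v R₀ (L.restrictScalars k) ≤ ICl v R₁ (N.restrictScalars k))
    {φ : (N ≃ₐ[F] N) →* (L ≃ₐ[L₀] L)} (hinj : Function.Injective φ)
    (hφ : ∀ σ, ∀ a : N, ∀ b : L, (a : Ω) = b → ((σ a : N) : Ω) = (φ σ b : L)) :
    Nat.card (decP v R₁ F N) ∣ Nat.card (decP v R₀ L₀ L) := by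
  let ψ : decP v R₁ F N →* decP v R₀ L₀ L :=
    (φ.comp (decP v R₁ F N).subtype).codRestrict (decP v R₀ L₀ L)
      fun σ => dec_restrict hR₀ hR₁ hle hφ σ.2
  refine Subgroup.card_dvd_of_injective ψ fun σ τ h => ?_
  apply Subtype.ext
  apply hinj
  exact congrArg (fun t : decP v R₀ L₀ L => (t : L ≃ₐ[L₀] L)) h

/-- The nearest point. `C` is a limit frame of `N` with ring `ICl v R₁ N`. -/
theorem near_core [FiniteDimensional F N] {p : ℕ} [Fact p.Prime] [CharP Ω p]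
    {r' D' : ℕ} (C : LF k v r' D')
    (hC : C.R = ICl v R₁ (N.restrictScalars k)) (hR₁ : ∀ f ∈ R₁, v.Ge 0 f)
    (hcard : ¬ p ∣ Nat.card (decP v R₁ F N)) {z : Ω} (hz : z ∈ F) (S : AddSubgroup Ω)
    (hSN : ∀ s ∈ S, s ∈ N)
    (hSst : ∀ σ : N ≃ₐ[F] N, ∀ a : N, (a : Ω) ∈ S → ((σ a : N) : Ω) ∈ S) {s₀ : Ω}
    (hs₀ : s₀ ∈ S) (hmono : ∀ s ∈ S, C.Mono (z - s))
    (hmax : ∀ s ∈ S, v (z - s) ≤ v (z - s₀)) :
    ∃ s₁ ∈ S, (∀ s ∈ S, v (z - s) ≤ v (z - s₁)) ∧
      ∀ σ ∈ decP v R₁ F N, ∀ a : N, (a : Ω) = s₁ → σ a = a := by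
  have hzN : z ∈ N := (algebraMap F N ⟨z, hz⟩).2
  set zN : N := algebraMap F N ⟨z, hz⟩ with hzN'
  have hzc : (zN : Ω) = z := rfl
  let O : Subring N :=
    { carrier := {a | (a : Ω) ∈ C.R}
      mul_mem' := fun ha hb => C.R.mul_mem ha hb
      one_mem' := C.R.one_mem
      add_mem' := fun ha hb => C.R.add_mem ha hb
      zero_mem' := C.R.zero_mem
      neg_mem' := fun ha => C.R.neg_mem ha }
  have hO : ∀ a : N, a ∈ O ↔ (a : Ω) ∈ C.R := fun a => Iff.rfl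
  let T : AddSubgroup N :=
    { carrier := {a | (a : Ω) ∈ S}
      add_mem' := fun ha hb => S.add_mem ha hb
      zero_mem' := S.zero_mem
      neg_mem' := fun ha => S.neg_mem ha }
  have hT : ∀ a : N, a ∈ T ↔ (a : Ω) ∈ S := fun a => Iff.rfl
  have hp : p.Coprime (Nat.card (decP v R₁ F N)) :=
    ((Fact.out : p.Prime).coprime_iff_not_dvd).2 hcard
  haveI : CharP N p := by
    have h1 : CharP N p ↔ CharP Ω p := by
      constructor
      · intro _; exact charP_of_injective_algebraMap (algebraMap N Ω).injective p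
      · intro _; exact (charP_iff (R := N) (p := p)).2 fun x => by
          rw [← CharP.cast_eq_zero_iff Ω p x]
          constructor
          · intro h; have := congrArg (algebraMap N Ω) h; simpa using this
          · intro h; apply (algebraMap N Ω).injective; simpa using h
    exact h1.2 inferInstance
  have key := TGh89.exists_fixed (D := decP v R₁ F N) p hp (O := O) (S := T) (z := zN)
    (s0 := ⟨s₀, hSN s₀ hs₀⟩) ?_ ?_ ?_ hs₀ ?_ ?_
  · obtain ⟨s₁, hs₁, hfix, h1, h2⟩ := key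
    have hne₀ := (hmono s₀ hs₀).1
    have hne₁ := (hmono (s₁ : Ω) hs₁).1
    have h1' : (z - (s₁ : Ω)) / (z - s₀) ∈ C.R := by
      have := (hO _).1 h1
      push_cast at this
      exact this
    have h2' : (z - s₀) / (z - (s₁ : Ω)) ∈ C.R := by
      have := (hO _).1 h2
      push_cast at this
      exact this
    refine ⟨s₁, hs₁, fun s hs => (hmax s hs).trans ?_, fun σ hσ a ha => ?_⟩
    · have h3 := C.nonneg _ h1' (div_ne_zero hne₁ hne₀)
      rw [v.map_div hne₁ hne₀] at h3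
      linarith
    · have : a = s₁ := Subtype.ext ha
      rw [this]
      exact hfix ⟨σ, hσ⟩
  · intro σ a ha
    have h1 : (a : Ω) ∈ ICl v R₁ (N.restrictScalars k) := by rw [← hC]; exact ha
    have h2 := (decP_mem hR₁ σ.2 h1).1
    rw [← hC] at h2
    exact h2
  · intro σ a ha
    exact hSst σ a ha
  · intro σ
    exact (σ : N ≃ₐ[F] N).commutes _
  · intro h
    have h1 : ((zN - ⟨s₀, hSN s₀ hs₀⟩ : N) : Ω) = 0 := by rw [h]; rfl
    exact (hmono s₀ hs₀).1 h1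
  · intro s hs
    rw [hO]
    have h1 := (hmono s₀ hs₀).div_mem89 (hmono (s : Ω) hs) (hmax s hs)
    push_cast
    exact h1

end Pool.Agent.TGL
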