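import Pool.Agent.Lib.TGL.Defs
import Pool.Agent.Lib.ALLZO.Z1a
import Pool.Agent.Lib.TGL_h89.Act

/-!
# TANK G, track L: limit frames as plain frames; the decomposition group acts on the ring
-/

set_option autoImplicit false

namespace Pool.Agent.TGL

open Pool.Agent.TAO (OVal VPos Ctx0)
open Pool.Agent.LU1 (FracIs fixO)
open Pool.Agent.ALLO (locv icl ICl decP le_locv)
open Pool.Agent.TGBh34 (IsFr Pre0)
open Pool.Agent.TGLh89

universe u w

variable {k Ω : Type u} [Field k] [Field Ω] [Algebra k Ω]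
  {𝕂 : Type w} [Field 𝕂] [LinearOrder 𝕂] [IsStrictOrderedRing 𝕂] {v : OVal 𝕂 Ω} {r D n : ℕ}

/-- A limit frame as a plain frame. -/
theorem LF.isFr89 (B : LF k v r D) : IsFr v B.Γ B.χ B.y B.R where
  mon := ⟨B.χ_ne, B.χ_add, B.χ_val⟩
  y_ne := B.y_ne
  y_pos := B.y_pos
  nonneg := B.nonneg
  loc := B.loc
  χ_mem := B.χ_mem
  y_mem := B.y_mem
  fg := B.fg
  fgen := B.fgen
  gen := fun f hf h0 => by
    obtain ⟨γ, hγ, a, ha, h1, b, hb, e⟩ := B.gen f hf h0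
    exact ⟨γ, hγ, a, ha, h1, b, hb, e⟩

theorem LF.hi_iff (B : LF k v r D) {f : Ω} : B.Hi f ↔ TGLh89.Hi B.Γ B.χ B.R f := Iff.rfl

theorem LF.Un.ge {B : LF k v r D} {f : Ω} (h : B.Un f) : f ∈ B.R ∧ f⁻¹ ∈ B.R :=
  ⟨h.1, B.loc f h.1 h.2.1 h.2.2⟩

theorem LF.Un.invF {B : LF k v r D} {f : Ω} (h : B.Un f) : B.Un f⁻¹ :=
  ⟨B.loc f h.1 h.2.1 h.2.2, inv_ne_zero h.2.1, by rw [v.map_inv h.2.1, h.2.2, neg_zero]⟩

theorem LF.Un.mulF {B : LF k v r D} {f g : Ω} (h : B.Un f) (h' : B.Un g) : B.Un (f * g) :=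
  ⟨B.R.mul_mem h.1 h'.1, mul_ne_zero h.2.1 h'.2.1, by
    rw [v.map_mul h.2.1 h'.2.1, h.2.2, h'.2.2, add_zero]⟩

theorem LF.Un.pow {B : LF k v r D} {f : Ω} (h : B.Un f) (m : ℕ) : B.Un (f ^ m) :=
  ⟨B.R.pow_mem h.1 m, pow_ne_zero m h.2.1, by rw [v.map_pow h.2.1, h.2.2, mul_zero]⟩

/-- The ratio of two monomials of value `≥ 0` is in the ring. -/
theorem LF.Mono.div_mem89 {B : LF k v r D} {f g : Ω} (hf : B.Mono f) (hg : B.Mono g)
    (h : v g ≤ v f) : f / g ∈ B.R := by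
  have h1 := B.isFr89
  have e : f / g = (f / B.χ (v f)) * (g / B.χ (v g))⁻¹ * (B.χ (v f - v g)) := by
    have h2 := B.χ_ne _ hf.2.1
    have h3 := B.χ_ne _ hg.2.1
    have h4 : B.χ (v f) = B.χ (v f - v g) * B.χ (v g) := by
      rw [← B.χ_add _ (B.Γ.sub_mem hf.2.1 hg.2.1) _ hg.2.1, sub_add_cancel]
    have h5 := B.χ_ne _ (B.Γ.sub_mem hf.2.1 hg.2.1)
    have h6 := hg.1
    rw [h4]
    field_simp
  rw [e]
  exact B.R.mul_mem (B.R.mul_mem hf.2.2.1 hg.2.2.ge.2)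
    (B.χ_mem _ (B.Γ.sub_mem hf.2.1 hg.2.1) (sub_nonneg.2 h))

section dec

variable {F : IntermediateField k Ω} {N : IntermediateField F Ω} {R : Subalgebra k Ω}

/-- An integrally closed localisation is closed under roots. -/
theorem rootN_ICl : RootN N (ICl v R (N.restrictScalars k)) := by
  rintro x hx q hq ⟨a, ha, b, hb, hb0, hvb, e⟩
  refine ⟨x * b, ⟨(N.restrictScalars k).mul_mem hx hb.1, ?_⟩, b, hb, hb0, hvb, by
    rw [mul_div_cancel_right₀ _ hb0]⟩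
  refine IsIntegral.of_pow hq ?_
  have e1 : (x * b) ^ q = a * b ^ (q - 1) := by
    have h2 : b ^ q = b ^ (q - 1) * b := by rw [← pow_succ, Nat.sub_add_cancel hq]
    rw [mul_pow, e, h2]
    field_simp
  rw [e1]
  exact ha.2.mul (hb.2.pow _)

/-- The decomposition group acts on the localised integral closure and preserves the centre. -/
theorem decP_mem (hR : ∀ f ∈ R, v.Ge 0 f) {σ : N ≃ₐ[F] N} (hσ : σ ∈ decP v R F N) {x : N}
    (hx : (x : Ω) ∈ ICl v R (N.restrictScalars k)) :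
    (σ x : Ω) ∈ ICl v R (N.restrictScalars k) ∧ (VPos v (x : Ω) ↔ VPos v (σ x : Ω)) := by
  obtain ⟨a, ha, b, hb, hb0, hvb, e⟩ := hx
  set a' : N := ⟨a, ha.1⟩ with ha'
  set b' : N := ⟨b, hb.1⟩ with hb'
  have hb'0 : b' ≠ 0 := fun h => hb0 (congrArg (fun t : N => (t : Ω)) h)
  have hx' : x = a' / b' := by
    apply Subtype.ext
    rw [e]; push_cast; rfl
  have h1 := hσ a' ha.2
  have h2 := hσ b' hb.2
  have hσb0 : σ b' ≠ 0 := fun h => hb'0 ((map_eq_zero σ).1 h)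
  have hσb0' : (σ b' : Ω) ≠ 0 := fun h => hσb0 (Subtype.ext h)
  have hbp : ¬ VPos v (b' : Ω) := fun h => by
    have := h hb0
    change 0 < v b at this
    rw [hvb] at this
    exact lt_irrefl _ this
  have hσbv : v (σ b' : Ω) = 0 := (ALLZO.val_eq_zero hR h2.1 (fun h => hbp (h2.2.2.2 h))).2
  have hσx : (σ x : Ω) = (σ a' : Ω) / (σ b' : Ω) := by
    rw [hx', map_div₀]; push_cast; rfl
  have haΩ : (x : Ω) = (a' : Ω) / (b' : Ω) := e
  refine ⟨⟨σ a', ⟨(σ a').2, h1.1⟩, σ b', ⟨(σ b').2, h2.1⟩, hσb0', hσbv, hσx⟩, ?_⟩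
  have key : ∀ {c d : Ω}, d ≠ 0 → v d = 0 → (VPos v (c / d) ↔ VPos v c) := by
    intro c d hd0 hdv
    constructor
    · intro h hc0
      have := h (div_ne_zero hc0 hd0)
      rwa [v.map_div hc0 hd0, hdv, sub_zero] at this
    · intro h hc0
      have hc0' : c ≠ 0 := fun h => hc0 (by rw [h, zero_div])
      rw [v.map_div hc0' hd0, hdv, sub_zero]
      exact h hc0'
  rw [haΩ, hσx, key hb0 hvb, key hσb0' hσbv]
  exact h1.2.2

end dec

end Pool.Agent.TGL
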