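import Pool.Agent.Lib.TGB_h34.Fr0

/-!
# TANK G, track L, row 3.3 (A): an algebra endomorphism of a limit frame ring which fixes the
parameters modulo `(χ > 0)` is the identity modulo `(χ > 0)` (Krull's intersection theorem)
-/

set_option autoImplicit false

namespace Pool.Agent.TGLh89

open Pool.Agent.TAO (OVal VPos Ctx0)
open Pool.Agent.ALLO (locv le_locv locv_mono locv_le locv_inv locv_nonneg)
open Pool.Agent.TGBh34

universe u w

variable {k Ω : Type u} [Field k] [Field Ω] [Algebra k Ω]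
  {𝕂 : Type w} [Field 𝕂] [LinearOrder 𝕂] [IsStrictOrderedRing 𝕂] {v : OVal 𝕂 Ω} {D : ℕ}

/-- `f` is in the ideal `(χ(> 0))` of `R`. -/
def Hi (Γ : AddSubgroup 𝕂) (χ : 𝕂 → Ω) (R : Subalgebra k Ω) (f : Ω) : Prop :=
  ∃ γ ∈ Γ, ∃ a ∈ R, (0 < γ ∨ a = 0) ∧ f = χ γ * a

variable {Γ : AddSubgroup 𝕂} {χ : 𝕂 → Ω} {y : Fin D → Ω} {R : Subalgebra k Ω}

theorem hi_zero : Hi Γ χ R (0 : Ω) := ⟨0, Γ.zero_mem, 0, R.zero_mem, Or.inr rfl, by ring⟩

theorem hi_mul {f g : Ω} (hf : Hi Γ χ R f) (hg : g ∈ R) : Hi Γ χ R (f * g) := by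
  obtain ⟨γ, hγ, a, ha, h0, rfl⟩ := hf
  refine ⟨γ, hγ, a * g, R.mul_mem ha hg, ?_, by ring⟩
  rcases h0 with h0 | h0
  · exact Or.inl h0
  · exact Or.inr (by rw [h0, zero_mul])

theorem hi_add (H : Pre0 v Γ χ y R) {f g : Ω} (hf : Hi Γ χ R f) (hg : Hi Γ χ R g) :
    Hi Γ χ R (f + g) := by
  obtain ⟨γ, hγ, a, ha, h0, rfl⟩ := hf
  obtain ⟨δ, hδ, b, hb, h1, rfl⟩ := hg
  rcases h0 with h0 | h0
  · rcases h1 with h1 | h1
    · rcases le_total γ δ with hle | hle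
      · obtain ⟨c, hc, e⟩ := H.χ_dvd hδ hγ hle
        exact ⟨γ, hγ, a + c * b, R.add_mem ha (R.mul_mem hc hb), Or.inl h0, by rw [e]; ring⟩
      · obtain ⟨c, hc, e⟩ := H.χ_dvd hγ hδ hle
        exact ⟨δ, hδ, c * a + b, R.add_mem (R.mul_mem hc ha) hb, Or.inl h1, by rw [e]; ring⟩
    · rw [h1, mul_zero, add_zero]
      exact ⟨γ, hγ, a, ha, Or.inl h0, rfl⟩
  · rw [h0, mul_zero, zero_add]
    exact ⟨δ, hδ, b, hb, h1, rfl⟩

theorem hi_mem (H : Pre0 v Γ χ y R) {f : Ω} (hf : Hi Γ χ R f) : f ∈ R := by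
  obtain ⟨γ, hγ, a, ha, h0, rfl⟩ := hf
  rcases h0 with h0 | h0
  · exact R.mul_mem (H.χ_mem γ hγ h0.le) ha
  · rw [h0, mul_zero]; exact R.zero_mem

theorem hi_neg {f : Ω} (hf : Hi Γ χ R f) : Hi Γ χ R (-f) := by
  have := hi_mul hf (R.neg_mem R.one_mem)
  rwa [mul_neg, mul_one] at this

theorem hi_vpos (H : Pre0 v Γ χ y R) {f : Ω} (hf : Hi Γ χ R f) : VPos v f := by
  obtain ⟨γ, hγ, a, ha, h0, rfl⟩ := hf
  rcases h0 with h0 | h0
  · refine VPos.mul ?_ (H.nonneg a ha)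
    intro _; rw [H.mon.val γ hγ]; exact h0
  · rw [h0, mul_zero]; exact VPos.zero

/-- The ideal `(χ > 0)`. -/
def hiI (H : Pre0 v Γ χ y R) : Ideal R where
  carrier := {f | Hi Γ χ R (f : Ω)}
  add_mem' := fun {a b} ha hb => by
    change Hi Γ χ R ((a : Ω) + (b : Ω))
    exact hi_add H ha hb
  zero_mem' := by
    change Hi Γ χ R ((0 : R) : Ω)
    rw [Subalgebra.coe_zero]
    exact hi_zero
  smul_mem' := fun c {a} ha => by
    change Hi Γ χ R ((c : Ω) * (a : Ω))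
    rw [mul_comm]
    exact hi_mul ha c.2

theorem mem_hiI {H : Pre0 v Γ χ y R} {f : R} : f ∈ hiI H ↔ Hi Γ χ R (f : Ω) := Iff.rfl

/-- A general criterion for noetherian rings: `A` is a localisation of a noetherian subring. -/
theorem noeth_of_den {A : Type*} [CommRing A] [Algebra k A] (A0 : Subalgebra k A)
    (hA0 : A0.FG) (h : ∀ x : A, ∃ b ∈ A0, IsUnit b ∧ b * x ∈ A0) : IsNoetherianRing A := by
  have hft : Algebra.FiniteType k A0 := A0.fg_iff_finiteType.1 hA0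
  have hno : IsNoetherianRing A0 := Algebra.FiniteType.isNoetherianRing k A0
  classical
  rw [isNoetherianRing_iff_ideal_fg]
  intro K
  obtain ⟨s, hs⟩ := (isNoetherianRing_iff_ideal_fg A0).1 hno (K.comap A0.val)
  refine ⟨s.image (fun x : A0 => (x : A)) , ?_⟩
  apply le_antisymm
  · rw [Ideal.span_le]
    intro x hx
    simp only [Finset.coe_image, Set.mem_image, Finset.mem_coe] at hx
    obtain ⟨y, hy, rfl⟩ := hx
    have : y ∈ Ideal.comap A0.val K := by rw [← hs]; exact Ideal.subset_span hy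
    exact this
  · intro x hx
    obtain ⟨b, hb, hbu, hbx⟩ := h x
    have h1 : (⟨b * x, hbx⟩ : A0) ∈ Ideal.comap A0.val K := by
      change b * x ∈ K
      exact K.mul_mem_left b hx
    rw [← hs] at h1
    have h2 : b * x ∈ Ideal.map A0.val (Ideal.span (s : Set A0)) :=
      Ideal.mem_map_of_mem A0.val h1
    rw [Ideal.map_span] at h2
    obtain ⟨c, hc⟩ := hbu.exists_left_inv
    have h3 : x = c * (b * x) := by rw [← mul_assoc, hc, one_mul]
    rw [h3]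
    refine Ideal.mul_mem_left _ _ ?_
    have h4 : (A0.val '' (s : Set A0)) = ((s.image (fun x : A0 => (x : A)) : Finset A) : Set A) := by
      rw [Finset.coe_image]; rfl
    rw [h4] at h2
    exact h2

theorem isUnit_iff (H : Pre0 v Γ χ y R) {f : R} : IsUnit f ↔ ((f : Ω) ≠ 0 ∧ v (f : Ω) = 0) := by
  constructor
  · intro h
    obtain ⟨g, hg⟩ := h.exists_right_inv
    have h1 : (f : Ω) * (g : Ω) = 1 := by
      have := congrArg (fun x : R => (x : Ω)) hg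
      simpa using this
    have hf0 : (f : Ω) ≠ 0 := left_ne_zero_of_mul_eq_one h1
    have hg0 : (g : Ω) ≠ 0 := right_ne_zero_of_mul_eq_one h1
    refine ⟨hf0, ?_⟩
    have h2 := v.map_mul hf0 hg0
    rw [h1, v.map_one] at h2
    have h3 := H.nonneg _ f.2 hf0
    have h4 := H.nonneg _ g.2 hg0
    linarith
  · rintro ⟨h0, h1⟩
    exact IsUnit.of_mul_eq_one ⟨(f : Ω)⁻¹, H.loc _ f.2 h0 h1⟩ (Subtype.ext (mul_inv_cancel₀ h0))

/-- The residue ring `R / (χ > 0)` is noetherian. -/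
theorem noeth_quot (H : IsFr v Γ χ y R) : IsNoetherianRing (R ⧸ hiI H.toPre0) := by
  classical
  obtain ⟨F, hF⟩ := H.fgen
  set π : R →ₐ[k] R ⧸ hiI H.toPre0 := Ideal.Quotient.mkₐ k (hiI H.toPre0) with hπ
  have hsurj : Function.Surjective π := Ideal.Quotient.mkₐ_surjective _ _
  set P := Algebra.adjoin k ((F : Set Ω) ∪ χ '' {γ | γ ∈ Γ ∧ 0 ≤ γ}) with hP
  have hPR : P ≤ R := by rw [hF]; exact le_locv _
  have hFR : ∀ f ∈ F, f ∈ R := fun f hf => hPR (Algebra.subset_adjoin (Or.inl hf))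
  set A0 : Subalgebra k (R ⧸ hiI H.toPre0) :=
    Algebra.adjoin k ((fun f : F => π ⟨f, hFR f f.2⟩) '' Set.univ) with hA0
  have hA0fg : A0.FG := Subalgebra.fg_def.2 ⟨_, Set.toFinite _, rfl⟩
  have key : ∀ f (hf : f ∈ P), π ⟨f, hPR hf⟩ ∈ A0 := by
    intro f hf
    induction hf using Algebra.adjoin_induction with
    | mem x hx =>
      rcases hx with hx | ⟨γ, ⟨hγ, h0⟩, rfl⟩
      · exact Algebra.subset_adjoin ⟨⟨x, hx⟩, trivial, rfl⟩
      · rcases h0.eq_or_lt with h0 | h0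
        · have h1 : (⟨χ γ, hPR (Algebra.subset_adjoin (Or.inr ⟨γ, ⟨hγ, h0.le⟩, rfl⟩))⟩ : R) = 1 := by
            apply Subtype.ext
            change χ γ = 1
            rw [← h0, H.mon.zero]
          have h2 : π ⟨χ γ, hPR (Algebra.subset_adjoin (Or.inr ⟨γ, ⟨hγ, h0.le⟩, rfl⟩))⟩ ∈ A0 := by
            rw [h1, map_one]; exact A0.one_mem
          exact h2
        · have h2 : π ⟨χ γ, hPR (Algebra.subset_adjoin (Or.inr ⟨γ, ⟨hγ, h0.le⟩, rfl⟩))⟩ ∈ A0 := by
            have h1 : π ⟨χ γ, hPR (Algebra.subset_adjoin (Or.inr ⟨γ, ⟨hγ, h0.le⟩, rfl⟩))⟩ = 0 := by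
              rw [hπ, Ideal.Quotient.mkₐ_eq_mk, Ideal.Quotient.eq_zero_iff_mem, mem_hiI]
              exact ⟨γ, hγ, 1, R.one_mem, Or.inl h0, by ring⟩
            rw [h1]; exact A0.zero_mem
          exact h2
    | algebraMap c =>
      have h1 : π ⟨algebraMap k Ω c, hPR (Subalgebra.algebraMap_mem _ c)⟩ = algebraMap k _ c :=
        π.commutes c
      rw [h1]
      exact A0.algebraMap_mem c
    | add x z hx hz ihx ihz =>
      have h1 : π ⟨x + z, hPR (P.add_mem hx hz)⟩ = π ⟨x, hPR hx⟩ + π ⟨z, hPR hz⟩ := by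
        rw [← map_add]; rfl
      rw [h1]
      exact A0.add_mem ihx ihz
    | mul x z hx hz ihx ihz =>
      have h1 : π ⟨x * z, hPR (P.mul_mem hx hz)⟩ = π ⟨x, hPR hx⟩ * π ⟨z, hPR hz⟩ := by
        rw [← map_mul]; rfl
      rw [h1]
      exact A0.mul_mem ihx ihz
  refine noeth_of_den A0 hA0fg fun x => ?_
  obtain ⟨f, rfl⟩ := hsurj x
  obtain ⟨a, ha, b, hb, hb0, hvb, hab⟩ := hF.le f.2
  refine ⟨π ⟨b, hPR hb⟩, key b hb, ?_, ?_⟩
  · exact ((isUnit_iff H.toPre0).2 ⟨hb0, hvb⟩).map π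
  · have : π ⟨b, hPR hb⟩ * π f = π ⟨a, hPR ha⟩ := by
      rw [← map_mul]
      congr 1
      apply Subtype.ext
      change b * (f : Ω) = a
      rw [hab, mul_div_cancel₀ _ hb0]
    rw [this]
    exact key a ha

/-- Every element of the ring is a constant plus an element of the maximal ideal. -/
theorem exists_const (hr : ∀ g : Ω, g ≠ 0 → v g = 0 → ∃ c : k, c ≠ 0 ∧ VPos v (g - algebraMap k Ω c))
    (H : IsFr v Γ χ y R) {a : Ω} (ha : a ∈ R) :
    ∃ c : k, MM0 Γ χ y R (a - algebraMap k Ω c) := by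
  rcases eq_or_ne a 0 with rfl | h0
  · exact ⟨0, by rw [map_zero, sub_zero]; exact H.mm_zero⟩
  rcases (H.nonneg a ha h0).eq_or_lt with h1 | h1
  · obtain ⟨c, -, hc⟩ := hr a h0 h1.symm
    exact ⟨c, H.gen _ (R.sub_mem ha (R.algebraMap_mem c)) hc⟩
  · refine ⟨0, ?_⟩
    rw [map_zero, sub_zero]
    exact H.gen a ha fun _ => h1

/-- An algebra endomorphism of a limit frame ring which fixes the parameters modulo `(χ > 0)` is
the identity modulo `(χ > 0)`. -/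
theorem hi_of_hom
    (hr : ∀ g : Ω, g ≠ 0 → v g = 0 → ∃ c : k, c ≠ 0 ∧ VPos v (g - algebraMap k Ω c))
    (H : IsFr v Γ χ y R) (φ : R →ₐ[k] R)
    (hχ : ∀ γ, ∀ hγ : γ ∈ Γ, ∀ h0 : 0 < γ, Hi Γ χ R (φ ⟨χ γ, H.χ_mem γ hγ h0.le⟩ : Ω))
    (hy : ∀ i, Hi Γ χ R ((φ ⟨y i, H.y_mem i⟩ : Ω) - y i)) (a : R) :
    Hi Γ χ R ((φ a : Ω) - a) := by
  set I := hiI H.toPre0 with hI
  set Y : Ideal R := Ideal.span (Set.range fun i => (⟨y i, H.y_mem i⟩ : R)) with hY
  have hno := noeth_quot H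
  have hIφ : ∀ f ∈ I, φ f ∈ I := by
    intro f hf
    obtain ⟨γ, hγ, b, hb, h0, hfb⟩ := mem_hiI.1 hf
    rcases h0 with h0 | h0
    · have h1 : f = ⟨χ γ, H.χ_mem γ hγ h0.le⟩ * ⟨b, hb⟩ := Subtype.ext hfb
      rw [h1, map_mul]
      exact I.mul_mem_right _ (mem_hiI.2 (hχ γ hγ h0))
    · have h1 : f = 0 := Subtype.ext (by rw [hfb, h0, mul_zero]; rfl)
      rw [h1, map_zero]
      exact I.zero_mem
  have key : ∀ M : ℕ, ∀ a : R, φ a - a ∈ I ⊔ Y ^ M := by
    intro M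
    induction M with
    | zero =>
      intro a
      rw [pow_zero, Ideal.one_eq_top, sup_top_eq]
      trivial
    | succ M ih =>
      intro a
      obtain ⟨c, γ, hγ, a', ha', h0, b, hb, e⟩ := exists_const hr H a.2
      have h1 : χ γ * a' ∈ R := hi_mem H.toPre0 ⟨γ, hγ, a', ha', h0, rfl⟩
      have h2 : a = algebraMap k R c + ⟨χ γ * a', h1⟩ +
          ∑ i, (⟨y i, H.y_mem i⟩ : R) * ⟨b i, hb i⟩ := by
        apply Subtype.ext
        have e' : (a : Ω) = algebraMap k Ω c + (χ γ * a' + ∑ i, y i * b i) := by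
          rw [← e]; ring
        rw [e', ← add_assoc]
        simp
      have h3 : φ a - a = (φ ⟨χ γ * a', h1⟩ - ⟨χ γ * a', h1⟩) +
          ∑ i, ((φ ⟨y i, H.y_mem i⟩ - ⟨y i, H.y_mem i⟩) * φ ⟨b i, hb i⟩ +
            (⟨y i, H.y_mem i⟩ : R) * (φ ⟨b i, hb i⟩ - ⟨b i, hb i⟩)) := by
        have h4 : ∑ i, ((φ ⟨y i, H.y_mem i⟩ - ⟨y i, H.y_mem i⟩) * φ ⟨b i, hb i⟩ +
            (⟨y i, H.y_mem i⟩ : R) * (φ ⟨b i, hb i⟩ - ⟨b i, hb i⟩)) =
            ∑ i, φ ⟨y i, H.y_mem i⟩ * φ ⟨b i, hb i⟩ -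
              ∑ i, (⟨y i, H.y_mem i⟩ : R) * ⟨b i, hb i⟩ := by
          rw [← Finset.sum_sub_distrib]
          exact Finset.sum_congr rfl fun i _ => by ring
        rw [h4]
        conv_lhs => rw [h2]
        rw [map_add, map_add, map_sum, AlgHom.commutes]
        simp only [map_mul]
        ring
      rw [h3]
      refine Ideal.add_mem _ (Submodule.mem_sup_left ?_) (Ideal.sum_mem _ fun i _ => ?_)
      · have h4 : (⟨χ γ * a', h1⟩ : R) ∈ I := mem_hiI.2 ⟨γ, hγ, a', ha', h0, rfl⟩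
        exact I.sub_mem (hIφ _ h4) h4
      · refine Ideal.add_mem _ (Submodule.mem_sup_left (I.mul_mem_right _ (mem_hiI.2 (hy i)))) ?_
        obtain ⟨u, hu, w, hw, huw⟩ := Submodule.mem_sup.1 (ih ⟨b i, hb i⟩)
        rw [← huw, mul_add]
        refine Ideal.add_mem _ (Submodule.mem_sup_left (I.mul_mem_left _ hu))
          (Submodule.mem_sup_right ?_)
        rw [pow_succ']
        exact Ideal.mul_mem_mul (Ideal.subset_span ⟨i, rfl⟩) hw
  set π := Ideal.Quotient.mk I with hπ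
  have hjac : Ideal.map π Y ≤ Ideal.jacobson ⊥ := by
    intro x hx
    obtain ⟨f, hf, rfl⟩ := (Ideal.mem_map_iff_of_surjective π Ideal.Quotient.mk_surjective).1 hx
    rw [Ideal.mem_jacobson_bot]
    intro z
    obtain ⟨g, rfl⟩ := Ideal.Quotient.mk_surjective z
    have hfv : VPos v (f : Ω) := by
      have : ∀ f ∈ Y, VPos v (f : Ω) := by
        intro f hf
        induction hf using Submodule.span_induction with
        | mem f hf => obtain ⟨i, rfl⟩ := hf; exact fun _ => H.y_pos i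
        | zero => exact VPos.zero
        | add f g _ _ hf hg => rw [Subalgebra.coe_add]; exact hf.add hg
        | smul c f _ hf =>
          have : ((c • f : R) : Ω) = (f : Ω) * (c : Ω) := by rw [mul_comm]; rfl
          rw [this]
          exact hf.mul (H.nonneg _ c.2)
      exact this f hf
    have h5 : IsUnit (f * g + 1) := by
      rw [isUnit_iff H.toPre0]
      have h6 : VPos v ((f : Ω) * (g : Ω)) := hfv.mul (H.nonneg _ g.2)
      have h7 : ((f * g + 1 : R) : Ω) = 1 + (f : Ω) * (g : Ω) := by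
        rw [Subalgebra.coe_add, Subalgebra.coe_mul, Subalgebra.coe_one, add_comm]
      rw [h7]
      have h8 := TAO.val_add_vpos (v := v) (f := (1 : Ω)) one_ne_zero v.map_one h6
      exact h8
    have h6 := h5.map π
    rwa [map_add, map_mul, map_one] at h6
  have hkr := Ideal.iInf_pow_smul_eq_bot_of_le_jacobson (M := R ⧸ I) _ hjac
  have h9 : π (φ a - a) ∈ (⨅ i : ℕ, Ideal.map π Y ^ i • ⊤ : Submodule (R ⧸ I) (R ⧸ I)) := by
    rw [Submodule.mem_iInf]
    intro M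
    have h10 : π (φ a - a) ∈ Ideal.map π (I ⊔ Y ^ M) := Ideal.mem_map_of_mem π (key M a)
    rw [Ideal.map_sup, Ideal.map_quotient_self, bot_sup_eq, Ideal.map_pow] at h10
    rw [smul_eq_mul, Ideal.mul_top]
    exact h10
  rw [hkr, Submodule.mem_bot, Ideal.Quotient.eq_zero_iff_mem] at h9
  exact mem_hiI.1 h9

end Pool.Agent.TGLh89
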